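import Pool.Agent.TUR.Class

/-!
MP_522c4e_co, Q1 for `k = 4`: `n_max(4) = 9`, attained exactly by the two tournaments that consist
of a cyclic triangle and a vertex that dominates it, or is dominated by it.  The other two
tournaments on four vertices have threshold `5`.
-/

namespace Pool.Agent.Results.MP_522c4e_co.FourVertices

open TUR SimpleGraph

/-- `m` is the number `n_0(T)` of the problem. -/
def IsN0 {k : ℕ} (T : Fin k → Fin k → Prop) (m : ℕ) : Prop :=
  ((∀ n, 1 ≤ n → TuranUnique T n) ∧ m = 1) ∨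
  ((¬ ∀ n, 1 ≤ n → TuranUnique T n) ∧ 2 ≤ m ∧ (∀ n, m ≤ n → TuranUnique T n) ∧
    ¬ TuranUnique T (m - 1))

/-- `m` is the number `n_max(k)` of the problem. -/
def IsNMax (k m : ℕ) : Prop :=
  IsGreatest {m | ∃ T : Fin k → Fin k → Prop, IsTournament T ∧ IsN0 T m} m

/-- The tournament with a vertex `0` dominating the cyclic triangle `1 → 2 → 3 → 1`. -/
def W (i j : Fin 4) : Prop := (i, j) ∈ [(0, 1), (0, 2), (0, 3), (1, 2), (2, 3), (3, 1)]

/-- The reverse of `W`: a vertex `0` dominated by a cyclic triangle. -/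
def L (i j : Fin 4) : Prop := W j i

/-- The strong tournament on four vertices: `0 → 1 → 2 → 3 → 0`, `1 → 3` and `2 → 0`. -/
def S (i j : Fin 4) : Prop := (i, j) ∈ [(0, 1), (1, 2), (2, 3), (3, 0), (1, 3), (2, 0)]

/-- The transitive tournament on four vertices. -/
def R (i j : Fin 4) : Prop := i < j

theorem W_eq : W = toP TW := by
  funext i j
  apply propext
  unfold W toP
  revert i j
  decide

theorem L_eq : L = toP TL := by
  funext i j
  apply propext
  unfold L W toP
  revert i j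
  decide

theorem S_eq : S = toP TS := by
  funext i j
  apply propext
  unfold S toP
  revert i j
  decide

theorem R_eq : R = toP TT := by
  funext i j
  apply propext
  unfold R toP
  revert i j
  decide

theorem isN0_unique {k : ℕ} {T : Fin k → Fin k → Prop} {m m' : ℕ} (h : IsN0 T m)
    (h' : IsN0 T m') : m = m' := by
  rcases h with h | h <;> rcases h' with h' | h'
  · rw [h.2, h'.2]
  · exact (h'.1 h.1).elim
  · exact (h.1 h'.1).elim
  · obtain ⟨-, a1, a2, a3⟩ := h
    obtain ⟨-, b1, b2, b3⟩ := h'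
    rcases lt_trichotomy m m' with hlt | heq | hlt
    · exact (b3 (a2 _ (by omega))).elim
    · exact heq
    · exact (a3 (b2 _ (by omega))).elim

theorem isN0_nine {T : Fin 4 → Fin 4 → Prop} (h : ∀ n, TuranUnique T n ↔ n ≤ 3 ∨ 9 ≤ n) :
    IsN0 T 9 := by
  refine Or.inr ⟨fun hall => ?_, by norm_num, fun n hn => (h n).2 (Or.inr hn), ?_⟩
  · have := (h 4).1 (hall 4 (by norm_num))
    omega
  · rw [h]
    norm_num

theorem isN0_five {T : Fin 4 → Fin 4 → Prop} (h : ∀ n, TuranUnique T n ↔ n ≠ 4) :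
    IsN0 T 5 := by
  refine Or.inr ⟨fun hall => ?_, by norm_num, fun n hn => (h n).2 (by omega), ?_⟩
  · exact (h 4).1 (hall 4 (by norm_num)) rfl
  · rw [h]
    norm_num

/-- **Q1 for `k = 4`.**  `n_max(4) = 9`; it is attained exactly by the two (non-isomorphic)
tournaments `W` and `L`; the two remaining tournaments on four vertices, the strong one and the
transitive one, have `n_0 = 5`.  More precisely, for every `n`, the Turan graph `T_3(n)` is the
unique extremal graph for `W` and for `L` iff `n ≤ 3` or `n ≥ 9`, and it is the unique extremal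
graph for the two other tournaments iff `n ≠ 4`. -/
theorem result :
    IsNMax 4 9 ∧
    ¬ TIso W L ∧
    ∀ T : Fin 4 → Fin 4 → Prop, IsTournament T →
      (IsN0 T 9 ↔ (TIso T W ∨ TIso T L)) ∧
      (IsN0 T 5 ↔ (TIso T S ∨ TIso T R)) ∧
      (((TIso T W ∨ TIso T L) ∧ ∀ n, TuranUnique T n ↔ (n ≤ 3 ∨ 9 ≤ n)) ∨
        ((TIso T S ∨ TIso T R) ∧ ∀ n, TuranUnique T n ↔ n ≠ 4)) := by
  have key : ∀ T : Fin 4 → Fin 4 → Prop, IsTournament T →
      (((TIso T W ∨ TIso T L) ∧ ∀ n, TuranUnique T n ↔ (n ≤ 3 ∨ 9 ≤ n)) ∨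
        ((TIso T S ∨ TIso T R) ∧ ∀ n, TuranUnique T n ↔ n ≠ 4)) := by
    intro T hT
    rcases classification hT with h | h | h | h
    · refine Or.inl ⟨Or.inl (by rw [W_eq]; exact h), fun n => ?_⟩
      rw [turanUnique_iso h, W_iff]
    · refine Or.inl ⟨Or.inr (by rw [L_eq]; exact h), fun n => ?_⟩
      rw [turanUnique_iso h, L_iff]
    · refine Or.inr ⟨Or.inl (by rw [S_eq]; exact h), fun n => ?_⟩
      rw [turanUnique_iso h, S_iff]
    · refine Or.inr ⟨Or.inr (by rw [R_eq]; exact h), fun n => ?_⟩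
      rw [turanUnique_iso h, T_iff]
  have hWL : ∀ T : Fin 4 → Fin 4 → Prop, (TIso T W ∨ TIso T L) →
      ∀ n, TuranUnique T n ↔ (n ≤ 3 ∨ 9 ≤ n) := by
    intro T hT n
    rcases hT with h | h
    · rw [turanUnique_iso h, W_eq, W_iff]
    · rw [turanUnique_iso h, L_eq, L_iff]
  have hSR : ∀ T : Fin 4 → Fin 4 → Prop, (TIso T S ∨ TIso T R) →
      ∀ n, TuranUnique T n ↔ n ≠ 4 := by
    intro T hT n
    rcases hT with h | h
    · rw [turanUnique_iso h, S_eq, S_iff]
    · rw [turanUnique_iso h, R_eq, T_iff]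
  refine ⟨⟨⟨W, ?_, isN0_nine (hWL W (Or.inl ⟨1, fun _ _ => Iff.rfl⟩))⟩, ?_⟩, ?_, ?_⟩
  · rw [W_eq]
    exact isTourW
  · rintro m ⟨T, hT, hm⟩
    rcases key T hT with ⟨-, h⟩ | ⟨-, h⟩
    · exact (isN0_unique hm (isN0_nine h)).le
    · have := isN0_unique hm (isN0_five h)
      omega
  · rintro ⟨π, hπ⟩
    have h : ∀ π : Equiv.Perm (Fin 4), ¬ ∀ i j, TW i j = TL (π i) (π j) := by decide +kernel
    refine h π fun i j => ?_
    have := hπ i j
    rw [W_eq, L_eq] at this
    exact Bool.eq_iff_iff.2 this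
  · intro T hT
    refine ⟨⟨fun h9 => ?_, fun h => isN0_nine (hWL T h)⟩,
      ⟨fun h5 => ?_, fun h => isN0_five (hSR T h)⟩, key T hT⟩
    · rcases key T hT with ⟨h, -⟩ | ⟨-, h⟩
      · exact h
      · have := isN0_unique h9 (isN0_five h)
        omega
    · rcases key T hT with ⟨-, h⟩ | ⟨h, -⟩
      · have := isN0_unique h5 (isN0_nine h)
        omega
      · exact h

end Pool.Agent.Results.MP_522c4e_co.FourVertices
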